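import Mathlib
import Pool.Agent.Helper523.LL.AllP

set_option autoImplicit false

open MeasureTheory Set Filter Topology
open scoped ENNReal Polynomial

namespace Pool.Agent.Results.MP_d321f7_an.AllExponents

/-- The inner boundary of `Ω`: the boundary points lying in the interior of the closure. -/
def innerBoundary (Ω : Set ℂ) : Set ℂ := frontier Ω ∩ interior (closure Ω)

/-- `φ` is a conformal map of `Ω` onto the open unit disc. -/
def ConformalOntoDisc (Ω : Set ℂ) (φ : ℂ → ℂ) : Prop :=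
  DifferentiableOn ℂ φ Ω ∧ BijOn φ Ω (Metric.ball 0 1)

/-- `W : (0,1] → (0,∞)` is bounded and `W(t) ↓ 0` as `t ↓ 0`. -/
structure WeightProfile (W : ℝ → ℝ) : Prop where
  pos : ∀ t ∈ Ioc (0 : ℝ) 1, 0 < W t
  bounded : ∃ C, ∀ t ∈ Ioc (0 : ℝ) 1, W t ≤ C
  mono : MonotoneOn W (Ioc (0 : ℝ) 1)
  tendsto : Tendsto W (𝓝[>] 0) (𝓝 0)

/-- `∫_0 log log (1 / W(t)) dt < +∞`. -/
def LogLogConverges (W : ℝ → ℝ) : Prop :=
  ∃ t₀ : ℝ, 0 < t₀ ∧ IntegrableOn (fun t => Real.log (Real.log (1 / W t))) (Ioc 0 t₀)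

/-- The polynomials are complete in `L^p_a(Ω, w dx dy)`: every analytic `f` on `Ω` with
`∫_Ω |f|^p w < ∞` is a limit of polynomials in `L^p(Ω, w dx dy)`. -/
def PolynomialsComplete (p : ℝ) (Ω : Set ℂ) (w : ℂ → ℝ) : Prop :=
  ∀ f : ℂ → ℂ, DifferentiableOn ℂ f Ω →
    ∫⁻ z in Ω, ‖f z‖ₑ ^ p * ENNReal.ofReal (w z) < ∞ →
    ∀ ε : ℝ≥0∞, 0 < ε → ∃ P : ℂ[X],
      ∫⁻ z in Ω, ‖f z - P.eval z‖ₑ ^ p * ENNReal.ofReal (w z) < ε

/-- **Divergence of the log-log integral is not necessary for completeness, for any exponent.**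
There is a bounded simply connected domain `Ω` with nonempty inner boundary such that for every
`1 ≤ p < ∞` there is a weight profile `W` with `∫_0 log log (1/W) dt < ∞` for which the polynomials
are complete in `L^p_a(Ω, W(1-|φ|) dx dy)`, for every conformal map `φ` of `Ω` onto the disc
(and such maps exist). -/
theorem result :
    ∃ Ω : Set ℂ,
      IsOpen Ω ∧ Bornology.IsBounded Ω ∧ IsSimplyConnected Ω ∧ (innerBoundary Ω).Nonempty ∧
      (∃ φ, ConformalOntoDisc Ω φ) ∧
      ∀ p : ℝ, 1 ≤ p → ∃ W : ℝ → ℝ, WeightProfile W ∧ LogLogConverges W ∧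
        ∀ φ, ConformalOntoDisc Ω φ → PolynomialsComplete p Ω (fun z => W (1 - ‖φ z‖)) := by
  refine ⟨Helper523.LL.Om, Helper523.LL.isOpen_Om,
    Metric.isBounded_ball.subset Helper523.LL.Om_sub, Helper523.LL.simply_connected_Om,
    Helper523.LL.inner_nonempty, ?_, ?_⟩
  · obtain ⟨φ, h1, h2⟩ := Helper523.LL.exists_conf
    exact ⟨φ, h1, h2⟩
  intro p hp
  obtain ⟨M, hM⟩ := exists_nat_ge (8 * (p - 1))
  refine ⟨fun t => t ^ (M + 2), ?_, ?_, ?_⟩
  · refine ⟨?_, ⟨1, ?_⟩, ?_, ?_⟩
    · intro t ht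
      have := ht.1
      positivity
    · intro t ht
      exact pow_le_one₀ ht.1.le ht.2
    · intro s hs t ht hst
      exact pow_le_pow_left₀ hs.1.le hst _
    · have : Tendsto (fun t : ℝ => t ^ (M + 2)) (𝓝 0) (𝓝 0) := by
        have h := (continuous_pow (M + 2) (M := ℝ)).tendsto 0
        simpa using h
      exact this.mono_left nhdsWithin_le_nhds
  · refine ⟨1 / 4, by norm_num, ?_⟩
    have hlog : IntegrableOn (fun t : ℝ => ((M : ℝ) + 2) * |Real.log t|) (Ioc 0 (1 / 4)) := by
      have h := (intervalIntegral.intervalIntegrable_log' (a := 0) (b := 1 / 4))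
      rw [intervalIntegrable_iff_integrableOn_Ioc_of_le (by norm_num)] at h
      exact h.abs.const_mul _
    have hm : Measurable (fun t : ℝ => Real.log (Real.log (1 / t ^ (M + 2)))) := by
      have h1 : Measurable (fun t : ℝ => 1 / t ^ (M + 2)) :=
        measurable_const.div (measurable_id.pow_const (M + 2))
      exact Real.measurable_log.comp (Real.measurable_log.comp h1)
    refine Integrable.mono' hlog hm.aestronglyMeasurable ?_
    refine (ae_restrict_iff' measurableSet_Ioc).2 (ae_of_all _ ?_)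
    intro t ht
    have ht0 : 0 < t := ht.1
    have hM0 : (0:ℝ) ≤ M := by positivity
    have hlt : Real.log t ≤ -1 := by
      have h1 : Real.log t ≤ Real.log (1 / 4) := Real.log_le_log ht0 ht.2
      have h2 : Real.log (1 / 4) ≤ -1 := by
        rw [Real.log_le_iff_le_exp (by norm_num)]
        have h3 : Real.exp 1 < 4 := by
          have := Real.exp_one_lt_d9
          linarith
        rw [Real.exp_neg, one_div]
        exact inv_anti₀ (Real.exp_pos 1) h3.le
      linarith
    have e : Real.log (1 / t ^ (M + 2)) = ((M : ℝ) + 2) * |Real.log t| := by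
      rw [abs_of_nonpos (by linarith), one_div, Real.log_inv, Real.log_pow]
      push_cast; ring
    rw [e, Real.norm_eq_abs]
    have hx : 1 ≤ ((M : ℝ) + 2) * |Real.log t| := by
      rw [abs_of_nonpos (by linarith)]; nlinarith
    rw [abs_of_nonneg (Real.log_nonneg hx)]
    have := Real.log_le_sub_one_of_pos (lt_of_lt_of_le one_pos hx)
    linarith
  · intro φ hφ f hf hfin ε hε
    exact Helper523.LL.dense_confP hφ.1 hφ.2 M hp hM hf hfin hε

end Pool.Agent.Results.MP_d321f7_an.AllExponents
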