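import Mathlib
import Pool.Agent.Helper265.HgG
import Pool.Agent.Helper265.HgI
import Pool.Agent.Helper265.HgJ
import Pool.Agent.Helper265.HgK

set_option autoImplicit false
open Complex Set Filter Metric Topology MeasureTheory
open scoped ENNReal

namespace Pool.Agent.Results.MP_d321f7_an.CompleteWithoutLogLog

/-- `φ` is a conformal map of `Ω` onto the open unit disc. -/
def IsConformalOntoDisc (φ : ℂ → ℂ) (Ω : Set ℂ) : Prop :=
  DifferentiableOn ℂ φ Ω ∧ BijOn φ Ω (ball 0 1) ∧ ∀ z ∈ Ω, deriv φ z ≠ 0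

/-- `W : (0, 1] → (0, ∞)` is nondecreasing, hence bounded by `W 1`, and `W t ↓ 0` as `t ↓ 0`. -/
structure IsProfile (W : ℝ → ℝ) : Prop where
  pos : ∀ t ∈ Ioc (0 : ℝ) 1, 0 < W t
  mono : MonotoneOn W (Ioc 0 1)
  lim : Tendsto W (𝓝[>] 0) (𝓝 0)

/-- The integral of `log log (1 / W t)` converges over `(0, t₀)` for some small `t₀`. -/
def LogLogConverges (W : ℝ → ℝ) : Prop :=
  ∃ t₀ : ℝ, 0 < t₀ ∧ t₀ < 1 ∧ W t₀ < 1 ∧
    IntegrableOn (fun t => Real.log (Real.log (1 / W t))) (Ioo 0 t₀)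

/-- The measure `w dx dy` on `Ω`, with `w z = W (1 - ‖φ z‖)`. -/
noncomputable def weighted (Ω : Set ℂ) (φ : ℂ → ℂ) (W : ℝ → ℝ) : Measure ℂ :=
  (volume.restrict Ω).withDensity (fun z => ENNReal.ofReal (W (1 - ‖φ z‖)))

/-- The closure of the polynomials in `L^p(μ)`. -/
def Hp (μ : Measure ℂ) (p : ℝ≥0∞) [Fact (1 ≤ p)] : Set (Lp ℂ p μ) :=
  closure {F | ∃ P : Polynomial ℂ, (F : ℂ → ℂ) =ᵐ[μ] fun z => P.eval z}

/-- The elements of `L^p(μ)` that are analytic in `Ω`. -/
def Lpa (Ω : Set ℂ) (μ : Measure ℂ) (p : ℝ≥0∞) : Set (Lp ℂ p μ) :=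
  {F | ∃ f : ℂ → ℂ, DifferentiableOn ℂ f Ω ∧ (F : ℂ → ℂ) =ᵐ[μ] f}

/-- The boundary points of `Ω` that lie in the interior of the closure of `Ω`. -/
def innerBoundary (Ω : Set ℂ) : Set ℂ := frontier Ω ∩ interior (closure Ω)

open Pool.Agent.Helper265

theorem weight_low {Ω : Set ℂ} {φ : ℂ → ℂ} (h : IsConformalOntoDisc φ Ω)
    {W : ℝ → ℝ} (hW : IsProfile W) (K : Set ℂ) (hK : K ⊆ Ω) (hKc : IsCompact K) :
    ∃ c : ℝ≥0∞, 0 < c ∧ ∀ z ∈ K, c ≤ ENNReal.ofReal (W (1 - ‖φ z‖)) := by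
  rcases K.eq_empty_or_nonempty with rfl | hne
  · exact ⟨1, one_pos, by simp⟩
  obtain ⟨z0, hz0, hmax⟩ := hKc.exists_isMaxOn hne ((h.1.continuousOn.mono hK).norm)
  have h1 : ‖φ z0‖ < 1 := by simpa using h.2.1.mapsTo (hK hz0)
  refine ⟨ENNReal.ofReal (W (1 - ‖φ z0‖)), ?_, fun z hz => ?_⟩
  · rw [ENNReal.ofReal_pos]
    exact hW.pos _ ⟨by linarith, by linarith [norm_nonneg (φ z0)]⟩
  · apply ENNReal.ofReal_le_ofReal
    have h2 : ‖φ z‖ ≤ ‖φ z0‖ := hmax hz
    exact hW.mono ⟨by linarith, by linarith [norm_nonneg (φ z0)]⟩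
      ⟨by linarith, by linarith [norm_nonneg (φ z)]⟩ (by linarith)

theorem weight_le {Ω : Set ℂ} {φ : ℂ → ℂ} (h : IsConformalOntoDisc φ Ω)
    {W : ℝ → ℝ} (hW : IsProfile W) {z : ℂ} (hz : z ∈ Ω) :
    ENNReal.ofReal (W (1 - ‖φ z‖)) ≤ ENNReal.ofReal (W 1) := by
  apply ENNReal.ofReal_le_ofReal
  have h2 : ‖φ z‖ < 1 := by simpa using h.2.1.mapsTo hz
  exact hW.mono ⟨by linarith, by linarith [norm_nonneg (φ z)]⟩ ⟨one_pos, le_rfl⟩
    (by linarith [norm_nonneg (φ z)])

theorem weight_aemeas {Ω : Set ℂ} (hO : IsOpen Ω) {φ : ℂ → ℂ} (h : IsConformalOntoDisc φ Ω)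
    {W : ℝ → ℝ} (hW : IsProfile W) :
    AEMeasurable (fun z : ℂ => ENNReal.ofReal (W (1 - ‖φ z‖))) (volume.restrict Ω) := by
  let W' : ℝ → ℝ := fun t => if t ≤ 0 then 0 else W (min t 1)
  have hmono : Monotone W' := by
    intro t s hts
    simp only [W']
    by_cases ht : t ≤ 0
    · rw [if_pos ht]
      by_cases hs : s ≤ 0
      · rw [if_pos hs]
      · rw [if_neg hs]
        exact (hW.pos _ ⟨lt_min (not_le.1 hs) one_pos, min_le_right _ _⟩).le
    · have hs : ¬ s ≤ 0 := fun h => ht (hts.trans h)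
      rw [if_neg ht, if_neg hs]
      exact hW.mono ⟨lt_min (not_le.1 ht) one_pos, min_le_right _ _⟩
        ⟨lt_min (not_le.1 hs) one_pos, min_le_right _ _⟩ (min_le_min_right _ hts)
  have hφm : AEMeasurable (fun z => 1 - ‖φ z‖) (volume.restrict Ω) :=
    (continuousOn_const.sub h.1.continuousOn.norm).aemeasurable hO.measurableSet
  have hm : AEMeasurable (fun z : ℂ => ENNReal.ofReal (W' (1 - ‖φ z‖))) (volume.restrict Ω) :=
    ENNReal.measurable_ofReal.comp_aemeasurable (hmono.measurable.comp_aemeasurable hφm)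
  refine hm.congr ?_
  rw [Filter.EventuallyEq, ae_restrict_iff' hO.measurableSet]
  refine Eventually.of_forall fun z hz => ?_
  have h2 : ‖φ z‖ < 1 := by simpa using h.2.1.mapsTo hz
  simp only [W']
  rw [if_neg (by linarith), min_eq_left (by linarith [norm_nonneg (φ z)])]

theorem id_profile : IsProfile (fun t => t) where
  pos := fun _ ht => ht.1
  mono := fun _ _ _ _ h => h
  lim := nhdsWithin_le_nhds

theorem id_loglog : LogLogConverges (fun t => t) := by
  refine ⟨Real.exp (-1), Real.exp_pos _, ?_, ?_, ?_⟩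
  · rw [Real.exp_lt_one_iff]; norm_num
  · rw [Real.exp_lt_one_iff]; norm_num
  · have h1 : IntegrableOn (fun t => Real.log t) (Ioo 0 (Real.exp (-1))) := by
      have := (intervalIntegral.intervalIntegrable_log' (a := 0) (b := Real.exp (-1))).1
      exact this.mono_set Ioo_subset_Ioc_self
    refine Integrable.mono' h1.norm ?_ ?_
    · apply Measurable.aestronglyMeasurable
      exact Real.measurable_log.comp (Real.measurable_log.comp (measurable_const.div measurable_id))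
    · filter_upwards [ae_restrict_mem measurableSet_Ioo] with t ht
      have h2 : Real.log (1 / t) = - Real.log t := by rw [one_div, Real.log_inv]
      have h3 : Real.log t ≤ -1 := by
        have := Real.log_le_log ht.1 ht.2.le
        rwa [Real.log_exp] at this
      rw [h2, Real.norm_of_nonneg (Real.log_nonneg (by linarith)), Real.norm_of_nonpos (by linarith)]
      have := Real.log_le_sub_one_of_pos (show 0 < -Real.log t by linarith)
      linarith

/-- **The main theorem.** -/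
theorem result :
    (∃ W : ℝ → ℝ, IsProfile W ∧ LogLogConverges W) ∧
    ∃ Ω : Set ℂ, IsOpen Ω ∧ IsConnected Ω ∧ IsSimplyConnected Ω ∧ Bornology.IsBounded Ω ∧
      (innerBoundary Ω).Nonempty ∧ (∃ φ : ℂ → ℂ, IsConformalOntoDisc φ Ω) ∧
      ∀ φ : ℂ → ℂ, IsConformalOntoDisc φ Ω → ∀ W : ℝ → ℝ, IsProfile W →
        ∀ (p : ℝ≥0∞) [Fact (1 ≤ p)], p ≠ ∞ →
          Hp (weighted Ω φ W) p = Lpa Ω (weighted Ω φ W) p := by
  refine ⟨⟨_, id_profile, id_loglog⟩, ?_⟩
  obtain ⟨G, C, h1, h2, h3, h4, h5, h6, h7⟩ := Hg.data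
  set Ω : Set ℂ := ⋃ m, G m with hΩ
  have hO : IsOpen Ω := isOpen_iUnion fun m => (h1 m).op
  have hsub : Ω ⊆ ball 0 1 := iUnion_subset fun m => (h1 m).sub
  have h0 : (0 : ℂ) ∈ Ω := mem_iUnion.2 ⟨0, (h1 0).core (mem_ball_self (by norm_num))⟩
  have hstar : StarConvex ℝ 0 Ω := by
    intro z hz a b ha hb hab
    obtain ⟨m, hm⟩ := mem_iUnion.1 hz
    rw [smul_zero, zero_add, real_smul]
    rcases eq_or_lt_of_le (show b ≤ 1 by linarith) with hb1 | hb1
    · rw [hb1, ofReal_one, one_mul]; exact hz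
    · exact mem_iUnion.2 ⟨m, (h1 m).star z (subset_closure hm) b hb hb1⟩
  have hsc : IsSimplyConnected Ω := by
    have := hstar.contractibleSpace ⟨0, h0⟩
    show SimplyConnectedSpace Ω
    infer_instance
  have hcon : IsConnected Ω := hsc.isPathConnected.isConnected
  refine ⟨Ω, hO, hcon, hsc, isBounded_ball.subset hsub, ?_, ?_, ?_⟩
  · obtain ⟨z, hz1, hz2⟩ : ∃ z ∈ ball (0 : ℂ) (1 / 2), z ∉ Ω := by
      by_contra hcon
      push Not at hcon
      exact absurd (measure_mono hcon) (not_le.2 h7)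
    refine ⟨z, ⟨h6 hz1, ?_⟩, ?_⟩
    · rwa [hO.interior_eq]
    · exact mem_interior.2 ⟨_, h6, isOpen_ball, hz1⟩
  · obtain ⟨φ, a1, a2, a3, a4⟩ := Osg.riemannSR hO (Osg.SR_star hO hstar ⟨0, h0⟩)
      hcon.isPreconnected hsub h0
    exact ⟨φ, a1, a2, a3⟩
  · intro φ hφ W hW p _ hp
    have hp1 : (1 : ℝ≥0∞) ≤ p := Fact.out
    have hp0 : p ≠ 0 := (lt_of_lt_of_le one_pos hp1).ne'
    set q : ℝ := p.toReal with hq
    have hq1 : 1 ≤ q := by
      have := (ENNReal.toReal_le_toReal (by simp) hp).2 hp1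
      simpa using this
    have hq0 : 0 < q := by linarith
    set w : ℂ → ℝ≥0∞ := fun z => ENNReal.ofReal (W (1 - ‖φ z‖)) with hw
    have hwm : AEMeasurable w (volume.restrict Ω) := by
      exact weight_aemeas hO hφ hW
    have hwf : ∀ z ∈ Ω, w z ≠ ∞ := fun z _ => ENNReal.ofReal_ne_top
    have hclosed : IsClosed (Lpa Ω (weighted Ω φ W) p) :=
      Hg.isClosed_Lpa hO hwm hwf (weight_low hφ hW) p hp
    have hnorm : ∀ h : ℂ → ℂ, AEMeasurable h (volume.restrict Ω) →
        eLpNorm h p (weighted Ω φ W) = (∫⁻ z in Ω, ‖h z‖ₑ ^ q * w z) ^ (1 / q) := by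
      intro h hh
      rw [eLpNorm_eq_lintegral_rpow_enorm_toReal hp0 hp]
      congr 1
      show ∫⁻ z, ‖h z‖ₑ ^ q ∂((volume.restrict Ω).withDensity w) = _
      rw [lintegral_withDensity_eq_lintegral_mul₀ hwm (hh.enorm.pow_const q)]
      simp only [Pi.mul_apply, mul_comm]
    have hac : weighted Ω φ W ≪ volume.restrict Ω := withDensity_absolutelyContinuous _ _
    have hpm : ∀ P : Polynomial ℂ, AEMeasurable (fun z : ℂ => P.eval z) (volume.restrict Ω) :=
      fun P => (Polynomial.continuous P).measurable.aemeasurable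
    have hda : ∀ f : ℂ → ℂ, DifferentiableOn ℂ f Ω → AEMeasurable f (volume.restrict Ω) :=
      fun f hf => hf.continuousOn.aemeasurable hO.measurableSet
    apply Subset.antisymm
    · apply closure_minimal _ hclosed
      rintro F ⟨P, hP⟩
      exact ⟨_, (Polynomial.differentiable P).differentiableOn, hP⟩
    · rintro F ⟨f, hf, hFf⟩
      have hfin : ∫⁻ z in Ω, ‖f z‖ₑ ^ q * w z ≠ ∞ := by
        have e1 := (Lp.eLpNorm_lt_top F)
        rw [eLpNorm_congr_ae hFf, hnorm f (hda f hf)] at e1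
        intro htop
        rw [htop, ENNReal.top_rpow_of_pos (by positivity)] at e1
        exact lt_irrefl _ e1
      rw [Hp, EMetric.mem_closure_iff]
      intro ε hε
      -- tolerance
      obtain ⟨δ, hδ0, hδ⟩ : ∃ δ : ℝ≥0∞, 0 < δ ∧ δ + δ ≤ ε := by
        refine ⟨ε / 2, ENNReal.half_pos hε.ne', ?_⟩
        rw [ENNReal.add_halves]
      obtain ⟨g, hg, hgfin, hfg⟩ := Hg.transfer hO hsc hφ.1 hφ.2.1 hφ.2.2 hW.pos hW.mono hq1 hf hfin
        (ε := δ ^ q) (ENNReal.rpow_pos_of_nonneg hδ0 hq0.le)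
      have hW1 : ENNReal.ofReal (W 1) ≠ 0 := by
        rw [Ne, ENNReal.ofReal_eq_zero, not_le]
        exact hW.pos 1 ⟨one_pos, le_rfl⟩
      obtain ⟨P, hP⟩ := Hg.density h1 h2 h3 h4 h5 hq1 (f := g) hg hgfin
        (ε := δ ^ q / ENNReal.ofReal (W 1))
        (ENNReal.div_pos (ENNReal.rpow_pos_of_nonneg hδ0 hq0.le).ne' ENNReal.ofReal_ne_top)
      have hPw : ∫⁻ z in Ω, ‖g z - P.eval z‖ₑ ^ q * w z < δ ^ q := by
        calc ∫⁻ z in Ω, ‖g z - P.eval z‖ₑ ^ q * w z
            ≤ ∫⁻ z in Ω, ‖g z - P.eval z‖ₑ ^ q * ENNReal.ofReal (W 1) := by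
              apply setLIntegral_mono' hO.measurableSet
              intro z hz
              gcongr
              exact weight_le hφ hW hz
          _ = (∫⁻ z in Ω, ‖g z - P.eval z‖ₑ ^ q) * ENNReal.ofReal (W 1) :=
              lintegral_mul_const' _ _ ENNReal.ofReal_ne_top
          _ < δ ^ q := by
              rwa [ENNReal.lt_div_iff_mul_lt (Or.inl hW1) (Or.inl ENNReal.ofReal_ne_top)] at hP
      have hroot : ∀ x : ℝ≥0∞, x < δ ^ q → x ^ (1 / q) < δ := by
        intro x hx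
        have := ENNReal.rpow_lt_rpow hx (show (0 : ℝ) < 1 / q by positivity)
        rwa [← ENNReal.rpow_mul, mul_one_div_cancel hq0.ne', ENNReal.rpow_one] at this
      have hPmem : MemLp (fun z : ℂ => P.eval z) p (weighted Ω φ W) := by
        have hfm : IsFiniteMeasure (weighted Ω φ W) := by
          apply isFiniteMeasure_withDensity
          have hv : volume Ω ≠ ∞ := ((measure_mono hsub).trans_lt measure_ball_lt_top).ne
          have hb : ∫⁻ z in Ω, w z ≤ ENNReal.ofReal (W 1) * volume Ω := by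
            calc ∫⁻ z in Ω, w z ≤ ∫⁻ _ in Ω, ENNReal.ofReal (W 1) :=
                  setLIntegral_mono' hO.measurableSet fun z hz => weight_le hφ hW hz
              _ = _ := by rw [setLIntegral_const]
          exact (hb.trans_lt (ENNReal.mul_lt_top ENNReal.ofReal_lt_top hv.lt_top)).ne
        obtain ⟨B, hB⟩ := (isCompact_closedBall (0 : ℂ) 1).exists_bound_of_continuousOn
          (Polynomial.continuous P).continuousOn
        refine MemLp.of_bound ((hpm P).mono_ac hac).aestronglyMeasurable B ?_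
        apply hac.ae_le
        filter_upwards [ae_restrict_mem hO.measurableSet] with z hz
        exact hB z (ball_subset_closedBall (hsub hz))
      refine ⟨hPmem.toLp _, ⟨P, hPmem.coeFn_toLp⟩, ?_⟩
      rw [Lp.edist_def]
      have e1 : eLpNorm (F - hPmem.toLp _ : ℂ → ℂ) p (weighted Ω φ W)
          = eLpNorm ((fun z => f z - g z) + (fun z => g z - P.eval z)) p (weighted Ω φ W) := by
        apply eLpNorm_congr_ae
        filter_upwards [hFf, hPmem.coeFn_toLp] with z hz1 hz2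
        simp only [Pi.sub_apply, Pi.add_apply]
        rw [hz1, hz2]
        ring
      rw [e1]
      have m1 : AEMeasurable (fun z => f z - g z) (volume.restrict Ω) := (hda f hf).sub (hda g hg)
      have m2 : AEMeasurable (fun z => g z - P.eval z) (volume.restrict Ω) := (hda g hg).sub (hpm P)
      refine lt_of_le_of_lt (eLpNorm_add_le (m1.mono_ac hac).aestronglyMeasurable
        (m2.mono_ac hac).aestronglyMeasurable hp1) (lt_of_lt_of_le ?_ hδ)
      rw [hnorm _ m1, hnorm _ m2]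
      exact ENNReal.add_lt_add (hroot _ hfg) (hroot _ hPw)

end Pool.Agent.Results.MP_d321f7_an.CompleteWithoutLogLog
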