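import Mathlib
import Pool.Agent.Helper523.LL.Main

set_option autoImplicit false

open MeasureTheory Set Filter Topology
open scoped ENNReal Polynomial

namespace Pool.Agent.Results.MP_d321f7_an.LogLogNotNecessary

/-- The inner boundary of `Ω`: the boundary points lying in the interior of the closure. -/
def innerBoundary (Ω : Set ℂ) : Set ℂ := frontier Ω ∩ interior (closure Ω)

/-- `φ` is a conformal map of `Ω` onto the open unit disc. -/
def ConformalOntoDisc (Ω : Set ℂ) (φ : ℂ → ℂ) : Prop :=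
  DifferentiableOn ℂ φ Ω ∧ BijOn φ Ω (Metric.ball 0 1)

/-- `W : (0,1] → (0,∞)` is bounded and `W(t) ↓ 0` as `t ↓ 0`. -/
structure WeightProfile (W : ℝ → ℝ) : Prop where
  pos : ∀ t ∈ Ioc (0 : ℝ) 1, 0 < W t
  bounded : ∃ C, ∀ t ∈ Ioc (0 : ℝ) 1, W t ≤ C
  mono : MonotoneOn W (Ioc (0 : ℝ) 1)
  tendsto : Tendsto W (𝓝[>] 0) (𝓝 0)

/-- `∫_0 log log (1 / W(t)) dt < +∞`. -/
def LogLogConverges (W : ℝ → ℝ) : Prop :=
  ∃ t₀ : ℝ, 0 < t₀ ∧ IntegrableOn (fun t => Real.log (Real.log (1 / W t))) (Ioc 0 t₀)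

/-- The polynomials are complete in `L^p_a(Ω, w dx dy)`: every analytic `f` on `Ω` with
`∫_Ω |f|^p w < ∞` is a limit of polynomials in `L^p(Ω, w dx dy)`. -/
def PolynomialsComplete (p : ℝ) (Ω : Set ℂ) (w : ℂ → ℝ) : Prop :=
  ∀ f : ℂ → ℂ, DifferentiableOn ℂ f Ω →
    ∫⁻ z in Ω, ‖f z‖ₑ ^ p * ENNReal.ofReal (w z) < ∞ →
    ∀ ε : ℝ≥0∞, 0 < ε → ∃ P : ℂ[X],
      ∫⁻ z in Ω, ‖f z - P.eval z‖ₑ ^ p * ENNReal.ofReal (w z) < ε

/-- **Divergence of the log-log integral is not necessary for completeness.**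
There are a bounded simply connected domain `Ω` with nonempty inner boundary and a weight profile
`W` with `∫_0 log log (1/W) dt < ∞` such that, for every conformal map `φ` of `Ω` onto the disc
(and such maps exist), the polynomials are complete in `L^1_a(Ω, W(1-|φ|) dx dy)`. -/
theorem result :
    ∃ (Ω : Set ℂ) (W : ℝ → ℝ),
      IsOpen Ω ∧ Bornology.IsBounded Ω ∧ IsSimplyConnected Ω ∧ (innerBoundary Ω).Nonempty ∧
      WeightProfile W ∧ LogLogConverges W ∧
      (∃ φ, ConformalOntoDisc Ω φ) ∧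
      ∀ φ, ConformalOntoDisc Ω φ → PolynomialsComplete 1 Ω (fun z => W (1 - ‖φ z‖)) := by
  refine ⟨Helper523.LL.Om, fun t => t ^ 2, Helper523.LL.isOpen_Om,
    Metric.isBounded_ball.subset Helper523.LL.Om_sub, Helper523.LL.simply_connected_Om,
    Helper523.LL.inner_nonempty, ?_, ?_, ?_, ?_⟩
  · refine ⟨?_, ⟨1, ?_⟩, ?_, ?_⟩
    · intro t ht
      have := ht.1
      positivity
    · intro t ht
      have h1 := ht.1
      have h2 := ht.2
      show t ^ 2 ≤ 1
      nlinarith
    · intro s hs t ht hst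
      exact pow_le_pow_left₀ hs.1.le hst 2
    · have : Tendsto (fun t : ℝ => t ^ 2) (𝓝 0) (𝓝 0) := by
        have h := (continuous_pow 2 (M := ℝ)).tendsto 0
        simpa using h
      exact this.mono_left nhdsWithin_le_nhds
  · refine ⟨1 / 4, by norm_num, ?_⟩
    have hlog : IntegrableOn (fun t : ℝ => 2 * |Real.log t|) (Ioc 0 (1 / 4)) := by
      have h := (intervalIntegral.intervalIntegrable_log' (a := 0) (b := 1 / 4))
      rw [intervalIntegrable_iff_integrableOn_Ioc_of_le (by norm_num)] at h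
      exact h.abs.const_mul 2
    have hm : Measurable (fun t : ℝ => Real.log (Real.log (1 / t ^ 2))) := by
      have h1 : Measurable (fun t : ℝ => 1 / t ^ 2) := measurable_const.div (measurable_id.pow_const 2)
      exact Real.measurable_log.comp (Real.measurable_log.comp h1)
    refine Integrable.mono' hlog hm.aestronglyMeasurable ?_
    refine (ae_restrict_iff' measurableSet_Ioc).2 (ae_of_all _ ?_)
    intro t ht
    have ht0 : 0 < t := ht.1
    have hlt : Real.log t ≤ -1 := by
      have h1 : Real.log t ≤ Real.log (1 / 4) := Real.log_le_log ht0 ht.2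
      have h2 : Real.log (1 / 4) ≤ -1 := by
        rw [Real.log_le_iff_le_exp (by norm_num)]
        have h3 : Real.exp 1 < 4 := by
          have := Real.exp_one_lt_d9
          linarith
        rw [Real.exp_neg, one_div]
        exact inv_anti₀ (Real.exp_pos 1) h3.le
      linarith
    have e : Real.log (1 / t ^ 2) = 2 * |Real.log t| := by
      rw [abs_of_nonpos (by linarith), one_div, Real.log_inv, Real.log_pow]
      push_cast; ring
    rw [e, Real.norm_eq_abs]
    have hx : 1 ≤ 2 * |Real.log t| := by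
      rw [abs_of_nonpos (by linarith)]; linarith
    rw [abs_of_nonneg (Real.log_nonneg hx)]
    have := Real.log_le_sub_one_of_pos (lt_of_lt_of_le one_pos hx)
    linarith
  · obtain ⟨φ, h1, h2⟩ := Helper523.LL.exists_conf
    exact ⟨φ, h1, h2⟩
  · intro φ hφ f hf hfin ε hε
    simp only [ENNReal.rpow_one] at hfin ⊢
    exact Helper523.LL.dense_conf hφ.1 hφ.2 hf hfin hε

end Pool.Agent.Results.MP_d321f7_an.LogLogNotNecessary
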